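import Pool.Agent.MP_c1891a_nt.G43.Bas

/-! A zero is moved by a Frobenius power, or satisfies two independent relations. -/

namespace Pool.Agent.MP_c1891a_nt.G43

open Finset Module Polynomial

theorem chain_walk (P : ℕ → Prop) (H : ℕ) (h1 : P 1) (n : ℕ) (hn : n ≠ 0)
    (hp : ∀ p, p.Prime → p ∣ n → H ≤ p) (h : ¬ P n) :
    ∃ a l, l.Prime ∧ H ≤ l ∧ a * l ∣ n ∧ P a ∧ ¬ P (a * l) := by
  induction n using Nat.strong_induction_on with
  | _ n ih =>
    have n1 : n ≠ 1 := fun e => h (e ▸ h1)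
    have hl := Nat.minFac_prime n1
    obtain ⟨m, hm⟩ := Nat.minFac_dvd n
    have m0 : m ≠ 0 := fun e => hn (by rw [hm, e, mul_zero])
    have e : m * n.minFac = n := by rw [mul_comm, ← hm]
    by_cases c : P m
    · exact ⟨m, _, hl, hp _ hl (Nat.minFac_dvd n), e.dvd, c, by rwa [e]⟩
    · have lt : m < n := by
        have := hl.two_le
        have := Nat.pos_of_ne_zero m0
        nlinarith
      have dv : m ∣ n := Dvd.intro _ e
      obtain ⟨a, l, k1, k2, k3, k4⟩ := ih m lt m0 (fun p a b => hp p a (b.trans dv)) c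
      exact ⟨a, l, k1, k2, k3.trans dv, k4⟩

open Classical in
theorem chain_vdm {ι : Type} (I : Finset ι) (c y : ι → ℂ)
    (h : ∀ t < I.card, ∑ i ∈ I, c i * y i ^ t = 0) (j : ℂ) :
    ∑ i ∈ I with y i = j, c i = 0 := by
  by_cases hj : j ∈ I.image y
  · set q : ℂ[X] := ∏ a ∈ (I.image y).erase j, (X - C a) with hq
    have dg : q.natDegree < I.card := by
      rw [hq, natDegree_finsetProd_X_sub_C_eq_card]
      exact (card_erase_lt_of_mem hj).trans_le card_image_le
    have ev : ∀ w, q.eval w = ∏ a ∈ (I.image y).erase j, (w - a) := fun w => by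
      simp [hq, eval_prod]
    have s0 : ∑ i ∈ I, c i * q.eval (y i) = 0 := by
      simp only [eval_eq_sum_range' dg, mul_sum]
      rw [sum_comm]
      refine sum_eq_zero fun t ht => ?_
      simp only [mul_left_comm (c _), ← mul_sum]
      rw [h t (mem_range.1 ht), mul_zero]
    have s1 : ∑ i ∈ I, c i * q.eval (y i) = (∑ i ∈ I with y i = j, c i) * q.eval j := by
      rw [sum_mul, sum_filter]
      refine sum_congr rfl fun i hi => ?_
      split_ifs with e
      · rw [e]
      · rw [ev, prod_eq_zero (mem_erase.2 ⟨e, mem_image_of_mem y hi⟩) (sub_self _), mul_zero]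
    rw [s0] at s1
    refine (mul_eq_zero.1 s1.symm).resolve_right ?_
    rw [ev]
    exact prod_ne_zero_iff.2 fun a ha => sub_ne_zero.2 (ne_of_mem_erase ha).symm
  · exact sum_eq_zero fun i hi =>
      absurd (mem_image.2 ⟨i, (mem_filter.1 hi).1, (mem_filter.1 hi).2⟩) hj

/-- the saturated line through a vector. -/
def chainLine {Λ : Type} [AddCommGroup Λ] (g : Λ) : Submodule ℤ Λ where
  carrier := {l | ∃ k j : ℤ, k ≠ 0 ∧ k • l = j • g}
  add_mem' := by
    rintro a b ⟨k, j, h, e⟩ ⟨k', j', h', e'⟩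
    refine ⟨k * k', k' * j + k * j', mul_ne_zero h h', ?_⟩
    rw [smul_add, mul_smul k k' b, e', mul_comm k k', mul_smul, e, add_smul, mul_smul, mul_smul]
  zero_mem' := ⟨1, 0, one_ne_zero, by simp⟩
  smul_mem' := by
    rintro c a ⟨k, j, h, e⟩
    exact ⟨k, c * j, h, by rw [smul_comm, e, mul_smul]⟩

theorem chain_sat {Λ : Type} [AddCommGroup Λ] (g : Λ) : Sat (chainLine g) := by
  rintro c l hc ⟨k, j, h, e⟩
  exact ⟨k * c, j, mul_ne_zero h hc, by rw [mul_smul, e]⟩

theorem chain_rank {Λ : Type} [AddCommGroup Λ] (g : Λ) : ¬ 2 ≤ finrank ℤ (chainLine g) := by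
  intro h
  obtain ⟨f, hf⟩ := exists_linearIndependent_of_le_finrank h
  have e0 : f = ![f 0, f 1] := by
    funext i
    fin_cases i <;> rfl
  rw [e0, LinearIndependent.pair_iff] at hf
  obtain ⟨k, j, h1, e1⟩ := (f 0).2
  obtain ⟨k', j', h2, e2⟩ := (f 1).2
  have a1 := hf (j' * k) (-(j * k')) (Subtype.ext (by
    simp only [Submodule.coe_add, Submodule.coe_smul, Submodule.coe_zero, neg_smul,
      Submodule.coe_neg]
    rw [mul_smul, e1, mul_smul, e2, smul_comm, add_neg_cancel]))
  have j0 : j' = 0 := (mul_eq_zero.1 a1.1).resolve_right h1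
  have a2 := hf 0 k' (Subtype.ext (by
    simp only [Submodule.coe_add, Submodule.coe_smul, Submodule.coe_zero]
    rw [e2, j0, zero_smul, zero_smul, add_zero]))
  exact h2 a2.2

theorem sChain (h1 : SSat) (h2 : SExt) : SChain := by
  classical
  intro Λ _ _ _ I z hr hF H
  set L := H.factorial with hL
  set N := 1 + I.card * L with hN
  set D : Finset Λ := (I ×ˢ I).image fun p => L • (p.1 - p.2) with hD
  refine ⟨(range (N + 1) ×ˢ range (N + 1)).filter fun a => a.2.Prime ∧ H ≤ a.2,
    (D ×ˢ D).filter fun l => ∀ s t : ℤ, s • l.1 + t • l.2 = 0 → s = 0 ∧ t = 0,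
    fun a ha => (mem_filter.1 ha).2, fun l hl => (mem_filter.1 hl).2, fun x hx => ?_⟩
  by_cases c : ∃ t < I.card, evN I z id (x ^ (1 + t * L)) ≠ 0
  · left
    obtain ⟨t, ht, c⟩ := c
    obtain ⟨a, l, k1, k2, k3, k4, k5⟩ := chain_walk (fun n => evN I z id (x ^ n) = 0) H
      (by simpa using hx) (1 + t * L) (by omega) (fun p hp hd => by
        by_contra lt
        have d1 : p ∣ t * L := (Nat.dvd_factorial hp.pos (not_le.1 lt).le).mul_left t
        exact hp.one_lt.ne' (Nat.dvd_one.1 ((Nat.dvd_add_left d1).1 hd))) c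
    have le : 1 + t * L ≤ N := Nat.add_le_add_left (Nat.mul_le_mul_right _ ht.le) 1
    have b1 := Nat.le_of_dvd (by omega) ((Dvd.intro _ rfl).trans k3)
    have b2 := Nat.le_of_dvd (by omega) ((Dvd.intro_left _ rfl).trans k3)
    exact ⟨(a, l), mem_filter.2 ⟨mem_product.2 ⟨mem_range.2 (by omega), mem_range.2 (by omega)⟩,
      k1, k2⟩, k4, k5⟩
  · right
    push Not at c
    by_contra hc
    have L0 : (L : ℤ) ≠ 0 := by exact_mod_cast H.factorial_ne_zero
    have z0 : ((poly I z id).re fun i => x i ^ L).Zero x := fun j => by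
      have := chain_vdm I (fun i => z i * x i) (fun i => x i ^ L) (fun t ht => by
        rw [← c t ht]
        refine sum_congr rfl fun i _ => ?_
        rw [AddChar.pow_apply, id, pow_add, pow_one, mul_comm t, pow_mul, mul_assoc]) j
      exact this
    have kill : ∀ i k : Λ, x i ^ L = x k ^ L → x (L • (i - k)) = 1 := fun i k e => by
      rw [x.map_nsmul_eq_pow]
      have := char_sub x i k
      apply mul_right_cancel₀ (pow_ne_zero L (char_ne x k))
      rw [← mul_pow, this, e, one_mul]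
    obtain ⟨g, hg⟩ : ∃ g : Λ, ∀ i ∈ I, ∀ k ∈ I, x i ^ L = x k ^ L → i - k ∈ chainLine g := by
      by_cases c0 : ∃ i ∈ I, ∃ k ∈ I, x i ^ L = x k ^ L ∧ i - k ≠ 0
      · obtain ⟨i₀, hi₀, k₀, hk₀, e₀, n₀⟩ := c0
        refine ⟨i₀ - k₀, fun i hi k hk e => ?_⟩
        by_contra hn
        refine hc ⟨(L • (i - k), L • (i₀ - k₀)), mem_filter.2 ⟨mem_product.2
          ⟨mem_image.2 ⟨(i, k), mem_product.2 ⟨hi, hk⟩, rfl⟩,
            mem_image.2 ⟨(i₀, k₀), mem_product.2 ⟨hi₀, hk₀⟩, rfl⟩⟩, fun s t hst => ?_⟩,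
          kill i k e, kill i₀ k₀ e₀⟩
        simp only [← natCast_zsmul, smul_smul] at hst
        have s0 : s = 0 := by
          by_contra s0
          exact hn ⟨s * L, -(t * L), mul_ne_zero s0 L0, by
            rw [neg_smul]; exact eq_neg_of_add_eq_zero_left hst⟩
        rw [s0, zero_mul, zero_smul, zero_add] at hst
        exact ⟨s0, (mul_eq_zero.1 ((smul_eq_zero.1 hst).resolve_right n₀)).resolve_right L0⟩
      · push Not at c0
        exact ⟨0, fun i hi k hk e => by rw [c0 i hi k hk e]; exact Submodule.zero_mem _⟩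
    have z1 : ((poly I z id).ref (chainLine g).mkQ).Zero x :=
      (poly I z id).zero_re _ (fun i => x i ^ L) (fun i hi k hk e =>
        Prod.ext rfl ((Submodule.Quotient.eq _).2 (hg i hi k hk e))) z0
    obtain ⟨l, hl⟩ : ∃ l, l ∉ chainLine g := by
      by_contra hn
      push Not at hn
      refine chain_rank g ?_
      rwa [show chainLine g = ⊤ from eq_top_iff.2 fun l _ => hn l, finrank_top]
    obtain ⟨u, u1, u2⟩ := ((h1 Λ Λ I id).2 _ (chain_sat g)).2.2.1 l hl
    have g1 : ((poly I z id).ref (chainLine g).mkQ).Good :=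
      (hF.2 u fun e => u1 (by rw [e]; rfl)).ref_of _ fun i _ k _ e => by
        rw [← sub_eq_zero, ← map_sub]
        exact u2 _ ((Submodule.Quotient.eq _).1 e)
    have := h2 Λ _ _ (chain_sat g) g1 ℂ _ (((poly I z id).zero_res _ x).2 z1) 0
      ⟨fun k => k.elim0, algebraicIndependent_empty_type⟩
    exact chain_rank g (by simpa using this)

end Pool.Agent.MP_c1891a_nt.G43
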